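import Pool.Agent.Helper31.T3.Face

/-!
Paths with weights are subdivided: an edge of weight `ℓ` becomes `ℓ` edges of weight `1`.
-/

set_option autoImplicit false

namespace Pool.Agent.Helper42.T3

open Pool.Agent.Helper31.T3

variable {J : Type*} [LinearOrder J] {a b : J ≃o J} {m n : ℕ} {u v w : ℕ → ℕ}

/-- The minimum of two order isomorphisms. -/
def inf (f g : J ≃o J) : J ≃o J where
  toFun z := min (f z) (g z)
  invFun z := max (f.symm z) (g.symm z)
  left_inv z := by
    rcases le_total (f z) (g z) with h | h
    · simp only [min_eq_left h, OrderIso.symm_apply_apply]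
      exact max_eq_left ((g.symm.monotone h).trans (g.symm_apply_apply z).le)
    · simp only [min_eq_right h, OrderIso.symm_apply_apply]
      exact max_eq_right ((f.symm.monotone h).trans (f.symm_apply_apply z).le)
  right_inv z := by
    rcases le_total (f.symm z) (g.symm z) with h | h
    · simp only [max_eq_right h, OrderIso.apply_symm_apply]
      exact min_eq_right ((f.apply_symm_apply z).symm.le.trans (f.monotone h))
    · simp only [max_eq_left h, OrderIso.apply_symm_apply]
      exact min_eq_left ((g.apply_symm_apply z).symm.le.trans (g.monotone h))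
  map_rel_iff' := by
    intro x y
    change min (f x) (g x) ≤ min (f y) (g y) ↔ x ≤ y
    constructor
    · intro h
      by_contra hn
      push Not at hn
      exact absurd h (not_le.mpr (lt_min ((min_le_left _ _).trans_lt (f.strictMono hn))
        ((min_le_right _ _).trans_lt (g.strictMono hn))))
    · intro h
      exact min_le_min (f.monotone h) (g.monotone h)

lemma inf_apply (f g : J ≃o J) (z : J) : inf f g z = min (f z) (g z) := rfl

/-- The edge and the position on this edge of the vertex `s` of the subdivided path. -/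
def loc (w : ℕ → ℕ) : ℕ → ℕ × ℕ
  | 0 => (0, 0)
  | s + 1 => if (loc w s).2 + 1 < w ((loc w s).1 + 1) then ((loc w s).1, (loc w s).2 + 1)
      else ((loc w s).1 + 1, 0)

/-- The sum of the first `j` weights. -/
def off (w : ℕ → ℕ) (j : ℕ) : ℕ := ∑ i ∈ Finset.range j, w (i + 1)

lemma off_succ (j : ℕ) : off w (j + 1) = off w j + w (j + 1) := Finset.sum_range_succ _ _

lemma off_mono {i j : ℕ} (h : i ≤ j) : off w i ≤ off w j := by
  induction h with
  | refl => exact le_rfl
  | step _ ih =>
    rw [Nat.succ_eq_add_one, off_succ]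
    omega

lemma loc_lt (hw : ∀ i, 0 < w i) (s : ℕ) : (loc w s).2 < w ((loc w s).1 + 1) := by
  induction s with
  | zero => exact hw _
  | succ s _ =>
    rw [loc]
    split_ifs with h
    · exact h
    · exact hw _

lemma loc_eq (hw : ∀ i, 0 < w i) : ∀ s j m : ℕ, off w j + m = s → m < w (j + 1) →
    loc w s = (j, m) := by
  intro s
  induction s with
  | zero =>
    intro j m h _
    rcases Nat.eq_zero_or_pos j with rfl | hj
    · obtain rfl : m = 0 := by omega
      rfl
    · obtain ⟨i, rfl⟩ : ∃ i, j = i + 1 := ⟨j - 1, by omega⟩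
      rw [off_succ] at h
      have := hw (i + 1)
      omega
  | succ s ih =>
    intro j m h hm
    rcases Nat.eq_zero_or_pos m with rfl | h0
    · rcases Nat.eq_zero_or_pos j with rfl | hj
      · have h1 : off w 0 = 0 := rfl
        omega
      · obtain ⟨i, rfl⟩ : ∃ i, j = i + 1 := ⟨j - 1, by omega⟩
        rw [off_succ] at h
        have h1 := hw (i + 1)
        have h2 := ih i (w (i + 1) - 1) (by omega) (by omega)
        rw [loc, h2]
        simp only
        rw [if_neg (by omega)]
    · obtain ⟨l, rfl⟩ : ∃ l, m = l + 1 := ⟨m - 1, by omega⟩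
      have h2 := ih j l (by omega) (by omega)
      rw [loc, h2]
      simp only
      rw [if_pos (by omega)]

lemma loc_sum (hw : ∀ i, 0 < w i) (s : ℕ) : off w (loc w s).1 + (loc w s).2 = s := by
  induction s with
  | zero => rfl
  | succ s ih =>
    have h1 := loc_lt hw s
    rw [loc]
    split_ifs with h
    · simp only
      omega
    · simp only
      rw [off_succ]
      omega

lemma loc_fst (hw : ∀ i, 0 < w i) {s j : ℕ} (h : s < off w j) : (loc w s).1 < j := by
  by_contra hn
  push Not at hn
  have h1 := off_mono (w := w) hn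
  have h2 := loc_sum hw s
  omega

lemma loc_lst (hw : ∀ i, 0 < w i) {s j : ℕ} (h : s + 1 = off w j) : (loc w s).1 + 1 = j := by
  have h0 : (loc w s).1 < j := loc_fst hw (by omega)
  by_contra hn
  have h1 := off_mono (w := w) (show (loc w s).1 + 2 ≤ j by omega)
  have h2 := loc_sum hw s
  have h3 := loc_lt hw s
  have h4 := hw ((loc w s).1 + 2)
  rw [off_succ, off_succ] at h1
  change off w (loc w s).1 + w ((loc w s).1 + 1) + w ((loc w s).1 + 2) ≤ off w j at h1
  omega

lemma pow_ge (P : FPth a b n w) (i k : ℕ) (z : J) : z ≤ (P.F i ^ k) z := by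
  induction k with
  | zero => exact le_rfl
  | succ k ih =>
    rw [pow_succ', RelIso.mul_apply]
    exact ih.trans (P.ge _ _)

lemma pow_le (P : FPth a b n w) (i : ℕ) {k l : ℕ} (h : k ≤ l) (z : J) :
    (P.F i ^ k) z ≤ (P.F i ^ l) z := by
  obtain ⟨e, rfl⟩ := Nat.exists_eq_add_of_le' h
  rw [pow_add, RelIso.mul_apply]
  exact pow_ge P i e _

/-- The vertex at the position `m` on the edge `j + 1`. -/
def vert (P : FPth a b n w) (j m : ℕ) : J ≃o J :=
  if m = 0 then P.h j else inf (P.h j) (P.h (j + 1) * P.F (j + 1) ^ (w (j + 1) - m))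

lemma vert_zero (P : FPth a b n w) (j : ℕ) : vert P j 0 = P.h j := if_pos rfl

lemma vert_eq (P : FPth a b n w) {j m : ℕ} (hj : j < n) (z : J) :
    vert P j m z = min (P.h j z) (P.h (j + 1) ((P.F (j + 1) ^ (w (j + 1) - m)) z)) := by
  rcases Nat.eq_zero_or_pos m with rfl | h
  · rw [vert_zero, Nat.sub_zero, min_eq_left (P.step j z hj)]
  · rw [vert, if_neg (by omega)]
    rfl

lemma vert_le (P : FPth a b n w) (j m : ℕ) (z : J) : vert P j m z ≤ P.h j z := by
  rw [vert]
  split_ifs
  · exact le_rfl
  · exact min_le_left _ _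

lemma vert_lo (P : FPth a b n w) (j m : ℕ) (z : J) : z ≤ vert P j m z := by
  rw [vert]
  split_ifs
  · exact P.lo _ _
  · exact le_min (P.lo _ _) ((pow_ge P (j + 1) _ z).trans (P.lo _ _))

/-- The vertex after the vertex `s`. -/
lemma vert_next (P : FPth a b n w) {s : ℕ} (hs : (loc w s).1 < n) :
    (∀ z, vert P (loc w s).1 (loc w s).2 z ≤
      vert P (loc w (s + 1)).1 (loc w (s + 1)).2 (P.F ((loc w s).1 + 1) z)) ∧
    (∀ z, P.h ((loc w s).1 + 1) z ≤ P.h (loc w s).1 z →
      vert P (loc w (s + 1)).1 (loc w (s + 1)).2 z ≤ vert P (loc w s).1 (loc w s).2 z) ∧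
    (∀ z, P.h ((loc w s).1 + 1) z ≤ P.h (loc w s).1 z →
      P.h ((loc w s).1 + 1) z ≤ vert P (loc w (s + 1)).1 (loc w (s + 1)).2 z) := by
  have hl := loc_lt P.wpos s
  rw [loc]
  split_ifs with h
  · refine ⟨fun z => ?_, fun z hz => ?_, fun z hz => ?_⟩
    · rw [vert_eq P hs, vert_eq P hs]
      refine min_le_min ((P.h _).monotone (P.ge _ _)) (le_of_eq ?_)
      have e : w ((loc w s).1 + 1) - (loc w s).2 = w ((loc w s).1 + 1) - ((loc w s).2 + 1) + 1 := by
        omega
      rw [e, pow_succ]
      rfl
    · rw [vert_eq P hs, vert_eq P hs]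
      refine min_le_min le_rfl ((P.h _).monotone (pow_le P _ ?_ z))
      simp only
      omega
    · rw [vert_eq P hs]
      exact le_min hz ((P.h _).monotone (pow_ge P _ _ z))
  · simp only [vert_zero]
    have e : w ((loc w s).1 + 1) - (loc w s).2 = 1 := by omega
    refine ⟨fun z => ?_, fun z hz => ?_, fun z _ => le_rfl⟩
    · rw [vert_eq P hs, e, pow_one]
      exact min_le_right _ _
    · rw [vert_eq P hs, e, pow_one]
      exact le_min hz ((P.h _).monotone (P.ge _ _))

/-- The subdivided path. -/
def sub (P : FPth a b n w) (N : ℕ) (hN : off w n = N) : FPth a b N (fun _ => 1) where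
  h s := vert P (loc w s).1 (loc w s).2
  F s := P.F ((loc w (s - 1)).1 + 1)
  l s := P.l ((loc w (s - 1)).1 + 1)
  r s := P.r ((loc w (s - 1)).1 + 1)
  pos := by
    obtain ⟨i, rfl⟩ : ∃ i, n = i + 1 := ⟨n - 1, by have := P.pos; omega⟩
    rw [off_succ] at hN
    have := P.wpos (i + 1)
    omega
  wpos _ := one_pos
  top z := by
    change vert P 0 0 z = a z
    rw [vert_zero, P.top]
  bot z := by
    rw [loc_eq P.wpos N n 0 (by omega) (P.wpos _)]
    change vert P n 0 z = z
    rw [vert_zero, P.bot]
  lo i z := vert_lo P _ _ z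
  hi i z := (vert_le P _ _ z).trans (P.hi _ _)
  one_le i z := P.one_le _ z
  le_b i z := P.le_b _ z
  flow i z := P.flow _ z
  up i z hi h := by
    have hs : (loc w i).1 < n := loc_fst P.wpos (by omega)
    have h1 := (vert_next P hs).1 z
    rwa [FPth.not_dn (P := P) (i := (loc w i).1 + 1) (not_lt.mpr h)] at h1
  down i z hi h := by
    have hs : (loc w i).1 < n := loc_fst P.wpos (by omega)
    exact (vert_next P hs).2.1 z (P.down _ z hs h)
  step i z hi := by
    have hs : (loc w i).1 < n := loc_fst P.wpos (by omega)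
    rw [pow_one]
    exact (vert_next P hs).1 z
  fst z := P.fst z
  lst z := by
    have h0 : 0 < off w n := by
      obtain ⟨i, hi⟩ : ∃ i, n = i + 1 := ⟨n - 1, by have := P.pos; omega⟩
      rw [hi, off_succ]
      have := P.wpos (i + 1)
      omega
    have h1 : (loc w (N - 1)).1 + 1 = n := loc_lst P.wpos (by omega)
    rw [h1]
    exact P.lst z

/-- If the heights do not increase along the subdivided path, they do not increase along the
path. -/
lemma mono_sub (P : FPth a b n w) (N : ℕ) (hN : off w n = N) {t : J} (h : (sub P N hN).Mono t) :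
    P.Mono t := by
  have key : ∀ e s, s + e ≤ N → (sub P N hN).h (s + e) t ≤ (sub P N hN).h s t := by
    intro e s
    induction e with
    | zero => intro _; exact le_rfl
    | succ e ih =>
      intro h1
      exact (h (s + e) (by omega)).trans (ih (by omega))
  have hv : ∀ j, (sub P N hN).h (off w j) = P.h j := by
    intro j
    change vert P (loc w (off w j)).1 (loc w (off w j)).2 = P.h j
    rw [loc_eq P.wpos (off w j) j 0 rfl (P.wpos _)]
    exact vert_zero P j
  intro i hi
  have h1 := off_mono (w := w) (show i + 1 ≤ n by omega)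
  have h2 := key (w (i + 1)) (off w i) (by rw [← off_succ]; omega)
  rwa [← off_succ, hv, hv] at h2

/-- The positions of the paths do not change. -/
lemma left_sub {P : FPth a b m u} {Q : FPth a b n v} (h : P.Left Q) (M N : ℕ)
    (hM : off u m = M) (hN : off v n = N) : (sub P M hM).Left (sub Q N hN) := by
  intro j i t hj hi d1 d2 g o
  have h1 : (loc u j).1 < m := loc_fst P.wpos (by omega)
  have h2 : (loc v i).1 < n := loc_fst Q.wpos (by omega)
  have e1 := P.down _ t h1 d1
  have e2 := Q.down _ t h2 d2
  refine h (loc u j).1 (loc v i).1 t h1 h2 d1 d2 ?_ ⟨?_, ?_⟩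
  · rcases g with g | g | g | g
    · exact Or.inl (mono_sub P M hM g)
    · exact Or.inr (Or.inl (mono_sub Q N hN g))
    · refine Or.inr (Or.inr (Or.inl ?_))
      rw [g.1, g.2]
      exact ⟨rfl, rfl⟩
    · exact Or.inr (Or.inr (Or.inr ⟨loc_lst P.wpos (by omega), loc_lst Q.wpos (by omega)⟩))
  · exact ((vert_next P h1).2.2 t e1).trans (o.1.trans (vert_le Q _ _ t))
  · exact ((vert_next Q h2).2.2 t e2).trans (o.2.trans (vert_le P _ _ t))

/-- The weight of the last edge is increased. -/
def pad (P : FPth a b n w) (e : ℕ) : FPth a b n (fun i => if i = n then w i + e else w i) :=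
  { P with
    wpos := fun i => by
      have := P.wpos i
      split_ifs <;> omega
    step := fun i z hi => by
      refine (P.step i z hi).trans ((P.h _).monotone (pow_le P _ ?_ z))
      split_ifs <;> omega }

lemma off_pad (P : FPth a b n w) (e : ℕ) :
    off (fun i => if i = n then w i + e else w i) n = off w n + e := by
  obtain ⟨i, hi⟩ : ∃ i, n = i + 1 := ⟨n - 1, by have := P.pos; omega⟩
  subst hi
  rw [off_succ, off_succ, if_pos rfl]
  have : off (fun j => if j = i + 1 then w j + e else w j) i = off w i := by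
    refine Finset.sum_congr rfl fun j hj => ?_
    rw [Finset.mem_range] at hj
    exact if_neg (by omega)
  omega

/-- A path of length at most `N` as a path with `N` edges of weight `1`. -/
def unit (P : FPth a b n w) (N : ℕ) (hN : off w n ≤ N) : FPth a b N (fun _ => 1) :=
  sub (pad P (N - off w n)) N (by rw [off_pad P]; omega)

lemma left_unit {P : FPth a b m u} {Q : FPth a b n v} (h : P.Left Q) (M N : ℕ)
    (hM : off u m ≤ M) (hN : off v n ≤ N) : (unit P M hM).Left (unit Q N hN) :=
  left_sub (P := pad P (M - off u m)) (Q := pad Q (N - off v n)) h M N _ _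

end Pool.Agent.Helper42.T3
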