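import Pool.Agent.Helper42.T3.Defs

/-!
The main cases of short paths.
-/

set_option autoImplicit false

namespace Pool.Agent.Helper42.T3

open Pool.Agent.Helper42.Th

variable {E : Type} {G : Type*} [Group G] {Γ : CMap E}

/-- The ends of `δ` are joined by three paths of length at most `2`, `3` and `5`, and `k = 1`, or
by two paths of length at most `k + 1` and `2 k + 1`, and `k ≥ 2`. -/
inductive Spherical (L : Lab G Γ) (δ : E) : ℕ → Prop
  | one (l n m : ℕ) (o p q : ℕ → E) (F F' F'' : E → Prop) (ho : Route L δ 2 l o F)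
      (hp : Route L δ 3 n p F') (hq : Route L δ 5 m q F'') (hop : Apart Γ l n o p F F')
      (hoq : Apart Γ l m o q F F'') (hpq : Apart Γ n m p q F' F'') : Spherical L δ 1
  | two (k n m : ℕ) (p q : ℕ → E) (F F' : E → Prop) (hk : 2 ≤ k) (hp : Route L δ (k + 1) n p F)
      (hq : Route L δ (2 * k + 1) m q F') (hpq : Apart Γ n m p q F F') : Spherical L δ k

end Pool.Agent.Helper42.T3
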