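import Pool.Agent.Helper24.T3.Abs

/-!
Two paths of the lengths `k + 1` and `2 * k + 1`, and a negative edge of slope at most `1 / k` in
absolute value; here `k = c + 2`.
-/

set_option autoImplicit false

namespace Pool.Agent.Helper42.T3

open Pool.Agent.Helper24.T3

variable {J : Type*} [LinearOrder J] {a : J ≃o J}

/-- The paths `P` and `Q`, with the bounds for their flows. -/
structure Two (c : ℕ) (P : Pth a (c + 3)) (Q : Pth a (2 * c + 5)) (b : J ≃o J) : Prop where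
  pow : ∀ s, (b ^ (c + 2)) s ≤ a s
  comm : ∀ s, a (b s) = b (a s)
  cut : Cut2 b P Q
  pb : ∀ j s, 0 < j → j ≤ c + 3 → P.F j s ≤ b s
  qb : ∀ i s, 0 < i → i ≤ 2 * c + 5 → Q.F i s ≤ b s
  p1 : ∀ s, s < P.F 1 s
  pn : ∀ s, s < P.F (c + 3) s
  q1 : ∀ s, s < Q.F 1 s
  qn : ∀ s, s < Q.F (2 * c + 5) s

namespace Two

variable {c : ℕ} {P : Pth a (c + 3)} {Q : Pth a (2 * c + 5)} {b : J ≃o J}

lemma bs (n : ℕ) (x : J) : (b ^ (n + 1)) x = b ((b ^ n) x) := by
  rw [pow_succ', RelIso.mul_apply]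

lemma bs' (n : ℕ) (x : J) : (b ^ (n + 1)) x = (b ^ n) (b x) := by
  rw [pow_succ, RelIso.mul_apply]

lemma badd (m n : ℕ) (x : J) : (b ^ (m + n)) x = (b ^ m) ((b ^ n) x) := by
  rw [pow_add, RelIso.mul_apply]

variable (S : Two c P Q b)
include S

lemma top (s : J) : Q.F 1 (P.F 1 s) ≤ b s := by
  refine S.cut 0 0 s (by omega) (by omega) (Or.inr (Or.inl ⟨rfl, rfl⟩)) ⟨?_, ?_⟩
  · rw [Q.top]
    exact P.hi 1 _ (by omega)
  · rw [P.top]
    exact Q.hi 1 _ (by omega)

lemma bot (s : J) : Q.F (2 * c + 5) (P.F (c + 3) s) ≤ b s := by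
  refine S.cut (c + 2) (2 * c + 4) s (by omega) (by omega)
    (Or.inr (Or.inr ⟨by omega, by omega⟩)) ⟨?_, ?_⟩
  · change P.h (c + 3) (P.F (c + 3) s) ≤ _
    rw [P.bot]
    exact Q.lo _ _ (by omega)
  · change Q.h (2 * c + 5) (P.F (c + 3) s) ≤ _
    rw [Q.bot]
    exact P.lo _ _ (by omega)

lemma W1b (s : J) : P.F 1 s < b s := (S.q1 _).trans_le (S.top s)
lemma Wnb (s : J) : P.F (c + 3) s < b s := (S.qn _).trans_le (S.bot s)
lemma Z1b (s : J) : Q.F 1 s < b s := ((Q.F 1).strictMono (S.p1 s)).trans_le (S.top s)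
lemma Znb (s : J) : Q.F (2 * c + 5) s < b s :=
  ((Q.F (2 * c + 5)).strictMono (S.pn s)).trans_le (S.bot s)
lemma blt (s : J) : s < b s := (S.p1 s).trans (S.W1b s)

lemma bpow (n : ℕ) (s : J) : s ≤ (b ^ n) s := by
  induction n with
  | zero => exact le_rfl
  | succ n ih =>
    rw [bs]
    exact ih.trans (S.blt _).le

lemma acomm (n : ℕ) (s : J) : a ((b ^ n) s) = (b ^ n) (a s) := by
  induction n with
  | zero => rfl
  | succ n ih => rw [bs, S.comm, ih, bs]

/-- The vertices of `P` are higher than the powers of `b`. -/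
lemma wlow (j m : ℕ) (hj : 0 < j) (hjm : j + m = c + 2) (x : J) : (b ^ m) x < P.h j x := by
  -- from the top
  have key : ∀ j : ℕ, j + 1 ≤ c + 3 → ∀ s, a s < P.h (j + 1) ((b ^ (j + 1)) s) := by
    intro j
    induction j with
    | zero =>
      intro _ s
      have h1 := P.step 0 s (by omega)
      rw [P.top] at h1
      refine h1.trans_lt ((P.h 1).strictMono ?_)
      rw [zero_add, pow_one]
      exact S.W1b s
    | succ j ih =>
      intro hj s
      refine (ih (by omega) s).trans_le ((P.step (j + 1) _ (by omega)).trans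
        ((P.h _).monotone ?_))
      rw [bs (j + 1)]
      exact S.pb _ _ (by omega) (by omega)
  obtain ⟨i, rfl⟩ : ∃ i, j = i + 1 := ⟨j - 1, by omega⟩
  obtain ⟨s, rfl⟩ := (b ^ (i + 1)).surjective x
  refine lt_of_le_of_lt ?_ (key i (by omega) s)
  rw [← badd, show m + (i + 1) = c + 2 by omega]
  exact S.pow s

/-- The vertices of `P` are lower than the powers of `b`. -/
lemma wup (j m : ℕ) (hjm : j + m = c + 2) (x : J) : P.h j x < (b ^ (m + 1)) x := by
  induction m generalizing j x with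
  | zero =>
    obtain rfl : j = c + 2 := by omega
    have h1 : P.h (c + 2) x ≤ P.h (c + 3) (P.F (c + 3) x) := P.step (c + 2) x (by omega)
    rw [P.bot] at h1
    refine h1.trans_lt ?_
    rw [zero_add, pow_one]
    exact S.Wnb x
  | succ m ih =>
    have h1 := P.step j x (by omega)
    have h2 := ih (j + 1) (by omega) (P.F (j + 1) x)
    refine h1.trans_lt (h2.trans_le ?_)
    rw [bs' (m + 1)]
    exact (b ^ (m + 1)).monotone (S.pb _ _ (by omega) (by omega))

lemma wup' (j m : ℕ) (hjm : j + m = c + 3) (x : J) (hj : 0 < j) : P.h j x ≤ (b ^ m) x := by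
  rcases Nat.eq_zero_or_pos m with rfl | h
  · obtain rfl : j = c + 3 := by omega
    rw [P.bot]
    exact le_rfl
  · obtain ⟨i, rfl⟩ : ∃ i, m = i + 1 := ⟨m - 1, by omega⟩
    exact (S.wup j i (by omega) x).le

lemma mono (t : J) : P.Mono t := by
  intro i hi
  rcases Nat.eq_zero_or_pos i with rfl | h
  · rw [P.top]
    exact P.hi _ _ (by omega)
  · obtain ⟨m, hm⟩ : ∃ m, i + m = c + 2 := ⟨c + 2 - i, by omega⟩
    exact (S.wup' (i + 1) m (by omega) t (by omega)).trans (S.wlow i m h hm t).le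

/-- The rule for two edges. -/
lemma rule (j i : ℕ) (s : J) (hj : j < c + 3) (hi : i < 2 * c + 5)
    (h1 : P.h (j + 1) (P.F (j + 1) s) ≤ Q.h i (P.F (j + 1) s))
    (h2 : Q.h (i + 1) (P.F (j + 1) s) ≤ P.h j (P.F (j + 1) s)) :
    Q.F (i + 1) (P.F (j + 1) s) ≤ b s :=
  S.cut j i s hj hi (Or.inl (Or.inl (S.mono _))) ⟨h1, h2⟩

/-- Two edges of `P` which follow each other. -/
lemma bWW (j : ℕ) (hj : j < c + 2) (x : J) : b x < P.F (j + 2) (P.F (j + 1) x) := by
  set y := P.F (j + 2) (P.F (j + 1) x) with hy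
  have h1 : P.h j x ≤ P.h (j + 2) y :=
    (P.step j x (by omega)).trans (P.step (j + 1) _ (by omega))
  obtain ⟨m, hm⟩ : ∃ m, j + 1 + m = c + 2 := ⟨c + 1 - j, by omega⟩
  have h2 : P.h (j + 2) y ≤ (b ^ m) y := S.wup' (j + 2) m (by omega) y (by omega)
  have h3 : (b ^ (m + 1)) x ≤ P.h j x := by
    rcases Nat.eq_zero_or_pos j with rfl | h
    · rw [P.top, show m + 1 = c + 2 by omega]
      exact S.pow x
    · exact (S.wlow j (m + 1) h (by omega) x).le
  have h4 : (b ^ (m + 1)) x < (b ^ m) y := by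
    rcases Nat.eq_zero_or_pos j with rfl | h
    · obtain ⟨i, rfl⟩ : ∃ i, m = i + 1 := ⟨m - 1, by omega⟩
      exact h3.trans_lt (h1.trans_lt (S.wup 2 i (by omega) y))
    · exact (S.wlow j (m + 1) h (by omega) x).trans_le (h1.trans h2)
  rw [bs'] at h4
  exact (b ^ m).lt_iff_lt.mp h4

/-- The flow of an edge of `Q` which meets a height of an edge of `P`. -/
lemma flow_lt (j i : ℕ) (t : J) (hj : j < c + 2) (hi : i < 2 * c + 5)
    (h1 : P.h (j + 1) t ≤ Q.h i t) (h2 : Q.h (i + 1) t ≤ P.h j t) :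
    Q.F (i + 1) t < P.F (j + 2) t := by
  obtain ⟨s, rfl⟩ := (P.F (j + 1)).surjective t
  exact (S.rule j i s (by omega) hi h1 h2).trans_lt (S.bWW j hj s)

/-- The vertices of `Q` are lower than the powers of `b`. -/
lemma zup (m : ℕ) (hm : m ≤ c + 2) : ∀ i, i + 2 * m = 2 * c + 5 → ∀ x, Q.h i x ≤ (b ^ m) x ∧
    (0 < m → Q.h i x < (b ^ m) x) := by
  induction m with
  | zero =>
    intro i hi x
    obtain rfl : i = 2 * c + 5 := by omega
    rw [Q.bot]
    exact ⟨le_rfl, fun h => absurd h (lt_irrefl _)⟩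
  | succ m ih =>
    intro i hi t
    suffices h : Q.h i t < (b ^ (m + 1)) t from ⟨h.le, fun _ => h⟩
    by_contra hn
    push Not at hn
    have hx := ih (by omega) (i + 2) (by omega)
    -- the next vertex
    have hy : ∀ σ, Q.h (i + 1) σ ≤ (b ^ (m + 1)) σ := by
      intro σ
      refine (Q.step (i + 1) σ (by omega)).trans (((hx _).1).trans ?_)
      rw [bs']
      exact (b ^ m).monotone (S.qb _ _ (by omega) (by omega))
    obtain ⟨j, hj⟩ : ∃ j, j + 1 + m = c + 2 := ⟨c + 1 - m, by omega⟩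
    have hwj : ∀ σ, (b ^ (m + 1)) σ ≤ P.h j σ := by
      intro σ
      rcases Nat.eq_zero_or_pos j with rfl | h
      · rw [P.top, show m + 1 = c + 2 by omega]
        exact S.pow σ
      · exact (S.wlow j (m + 1) h (by omega) σ).le
    have h1 : Q.F (i + 1) t < P.F (j + 2) t :=
      S.flow_lt j i t (by omega) (by omega) ((S.wup (j + 1) m (by omega) t).le.trans hn)
        ((hy t).trans (hwj t))
    obtain ⟨σ, hσ⟩ := (P.F (j + 2)).surjective (Q.F (i + 1) t)
    have hσt : σ < t := by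
      rw [← (P.F (j + 2)).lt_iff_lt, hσ]
      exact h1
    have hle : Q.F (i + 1) t ≤ b t := S.qb _ _ (by omega) (by omega)
    have h2 := S.rule (j + 1) (i + 1) σ (by omega) (by omega) (by
      change P.h (j + 2) (P.F (j + 2) σ) ≤ Q.h (i + 1) (P.F (j + 2) σ)
      rw [hσ]
      refine (S.wup' (j + 2) m (by omega) _ (by omega)).trans ?_
      refine ((b ^ m).monotone hle).trans ?_
      rw [← bs']
      exact hn.trans (Q.step i t (by omega))) (by
      change Q.h (i + 2) (P.F (j + 2) σ) ≤ P.h (j + 1) (P.F (j + 2) σ)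
      exact ((hx _).1).trans (S.wlow (j + 1) m (by omega) (by omega) _).le)
    change Q.F (i + 2) (P.F (j + 2) σ) ≤ b σ at h2
    rw [hσ] at h2
    have h3 : Q.F (i + 2) (Q.F (i + 1) t) < b t := h2.trans_lt (b.strictMono hσt)
    have h4 : Q.h i t ≤ (b ^ m) (Q.F (i + 2) (Q.F (i + 1) t)) :=
      (Q.step i t (by omega)).trans ((Q.step (i + 1) _ (by omega)).trans (hx _).1)
    have h5 : (b ^ m) (Q.F (i + 2) (Q.F (i + 1) t)) < (b ^ (m + 1)) t := by
      rw [bs']
      exact (b ^ m).strictMono h3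
    exact absurd (hn.trans h4) (not_le.mpr h5)

/-- `z (2 j + 1) < w j`. -/
lemma zw_odd (j : ℕ) (hj : 0 < j) (hj' : j ≤ c + 2) (x : J) : Q.h (2 * j + 1) x < P.h j x := by
  obtain ⟨m, hm⟩ : ∃ m, j + m = c + 2 := ⟨c + 2 - j, by omega⟩
  exact ((S.zup m (by omega) (2 * j + 1) (by omega) x).1).trans_lt (S.wlow j m hj hm x)

/-- `z (2 j) < w j`. -/
lemma zw_even (j : ℕ) (hj : 0 < j) (hj' : j ≤ c + 2) (x : J) : Q.h (2 * j) x < P.h j x := by
  by_contra hn
  push Not at hn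
  obtain ⟨i, rfl⟩ : ∃ i, j = i + 1 := ⟨j - 1, by omega⟩
  obtain ⟨m, hm⟩ : ∃ m, i + 1 + m = c + 2 := ⟨c + 1 - i, by omega⟩
  obtain ⟨σ, rfl⟩ := (P.F (i + 1)).surjective x
  have h1 := S.rule i (2 * (i + 1)) σ (by omega) (by omega) hn
    ((S.zw_odd (i + 1) hj hj' _).le.trans (S.mono _ i (by omega)))
  set t := Q.F (2 * (i + 1) + 1) (P.F (i + 1) σ) with ht
  have h2 : P.h i σ ≤ Q.h (2 * (i + 1) + 1) t :=
    (P.step i σ (by omega)).trans (hn.trans (Q.step _ _ (by omega)))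
  have h3 := S.zup m (by omega) (2 * (i + 1) + 1) (by omega) t
  have h4 : (b ^ m) t ≤ (b ^ (m + 1)) σ := by
    rw [bs']
    exact (b ^ m).monotone h1
  rcases Nat.eq_zero_or_pos i with rfl | hi
  · have h5 : (b ^ (m + 1)) σ ≤ P.h 0 σ := by
      rw [P.top, show m + 1 = c + 2 by omega]
      exact S.pow σ
    exact absurd ((h3.2 (by omega)).trans_le (h4.trans h5)) (not_lt.mpr h2)
  · have h5 := S.wlow i (m + 1) hi (by omega) σ
    exact absurd (h3.1.trans_lt (h4.trans_lt h5)) (not_lt.mpr h2)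

/-- The vertices of `Q`, from the top. -/
lemma down (m : ℕ) (hm : m ≤ c + 2) : ∀ s, a s ≤ Q.h (2 * m) ((b ^ m) s) ∧
    (0 < m → a s < Q.h (2 * m) ((b ^ m) s)) := by
  induction m with
  | zero =>
    intro s
    refine ⟨?_, fun h => absurd h (lt_irrefl _)⟩
    change a s ≤ Q.h 0 s
    rw [Q.top]
  | succ m ih =>
    intro s
    have ihm := ih (by omega)
    suffices h : a s < Q.h (2 * (m + 1)) ((b ^ (m + 1)) s) from ⟨h.le, fun _ => h⟩
    -- the previous even vertex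
    have e0 : ∀ x, P.h (m + 1) x ≤ Q.h (2 * m) x := by
      intro x
      rcases Nat.eq_zero_or_pos m with rfl | h
      · change P.h 1 x ≤ Q.h 0 x
        rw [Q.top]
        exact P.hi _ _ (by omega)
      · obtain ⟨s, rfl⟩ := (b ^ m).surjective x
        obtain ⟨l, hl⟩ : ∃ l, m + 1 + l = c + 3 := ⟨c + 2 - m, by omega⟩
        refine (S.wup' (m + 1) l hl _ (by omega)).trans (le_trans ?_ (ihm s).1)
        rw [← badd, show l + m = c + 2 by omega]
        exact S.pow s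
    have o0 : ∀ x, Q.h (2 * m + 1) x ≤ P.h m x := by
      intro x
      rcases Nat.eq_zero_or_pos m with rfl | h
      · rw [P.top]
        exact Q.hi _ _ (by omega)
      · exact (S.zw_odd m h (by omega) x).le
    have hZ : ∀ t, Q.F (2 * m + 1) t < P.F (m + 2) t := fun t =>
      S.flow_lt m (2 * m) t (by omega) (by omega) (e0 t) (o0 t)
    have hZb : ∀ t, Q.F (2 * m + 1) t < b t := fun t => (hZ t).trans_le (S.pb _ _ (by omega)
      (by omega))
    have al : ∀ x, P.h (m + 2) x < Q.h (2 * m + 1) x := by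
      intro x
      obtain ⟨s, rfl⟩ := (b ^ (m + 1)).surjective x
      obtain ⟨l, hl⟩ : ∃ l, m + 2 + l = c + 3 := ⟨c + 1 - m, by omega⟩
      have h1 : P.h (m + 2) ((b ^ (m + 1)) s) ≤ a s := by
        refine (S.wup' (m + 2) l hl _ (by omega)).trans ?_
        rw [← badd, show l + (m + 1) = c + 2 by omega]
        exact S.pow s
      refine h1.trans_lt (((ihm s).1.trans (Q.step (2 * m) _ (by omega))).trans_lt ?_)
      rw [bs m]
      exact (Q.h (2 * m + 1)).strictMono (hZb _)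
    have ga : ∀ σ, Q.F (2 * m + 2) (P.F (m + 2) σ) ≤ b σ := fun σ =>
      S.rule (m + 1) (2 * m + 1) σ (by omega) (by omega) (al _).le
        (S.zw_even (m + 1) (by omega) (by omega) _).le
    have pr : ∀ t, Q.F (2 * m + 2) (Q.F (2 * m + 1) t) < b t := fun t =>
      ((Q.F (2 * m + 2)).strictMono (hZ t)).trans_le (ga t)
    have h1 : a s ≤ Q.h (2 * m + 2) (Q.F (2 * m + 2) (Q.F (2 * m + 1) ((b ^ m) s))) :=
      (ihm s).1.trans ((Q.step (2 * m) _ (by omega)).trans (Q.step (2 * m + 1) _ (by omega)))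
    refine h1.trans_lt ?_
    change _ < Q.h (2 * m + 2) ((b ^ (m + 1)) s)
    rw [bs m]
    exact (Q.h (2 * m + 2)).strictMono (pr _)

lemma eps (m : ℕ) (hm : m ≤ c + 2) (x : J) : P.h (m + 1) x ≤ Q.h (2 * m) x := by
  rcases Nat.eq_zero_or_pos m with rfl | h
  · change P.h 1 x ≤ Q.h 0 x
    rw [Q.top]
    exact P.hi _ _ (by omega)
  · obtain ⟨s, rfl⟩ := (b ^ m).surjective x
    obtain ⟨l, hl⟩ : ∃ l, m + 1 + l = c + 3 := ⟨c + 2 - m, by omega⟩
    refine (S.wup' (m + 1) l hl _ (by omega)).trans (le_trans ?_ (S.down m hm s).1)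
    rw [← badd, show l + m = c + 2 by omega]
    exact S.pow s

lemma odd_le (m : ℕ) (hm : m ≤ c + 2) (x : J) : Q.h (2 * m + 1) x ≤ P.h m x := by
  rcases Nat.eq_zero_or_pos m with rfl | h
  · rw [P.top]
    exact Q.hi _ _ (by omega)
  · exact (S.zw_odd m h (by omega) x).le

/-- `Z (2 m + 1) W (m + 1) ≤ b`. -/
lemma beta (m : ℕ) (hm : m ≤ c + 2) (s : J) : Q.F (2 * m + 1) (P.F (m + 1) s) ≤ b s :=
  S.rule m (2 * m) s (by omega) (by omega) (S.eps m hm _) (S.odd_le m hm _)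

lemma Zlt (m : ℕ) (hm : m < c + 2) (t : J) : Q.F (2 * m + 1) t < P.F (m + 2) t :=
  S.flow_lt m (2 * m) t (by omega) (by omega) (S.eps m hm.le t) (S.odd_le m hm.le t)

lemma alpha (m : ℕ) (hm : m < c + 2) (x : J) : P.h (m + 2) x < Q.h (2 * m + 1) x := by
  obtain ⟨s, rfl⟩ := (b ^ (m + 1)).surjective x
  obtain ⟨l, hl⟩ : ∃ l, m + 2 + l = c + 3 := ⟨c + 1 - m, by omega⟩
  have h1 : P.h (m + 2) ((b ^ (m + 1)) s) ≤ a s := by
    refine (S.wup' (m + 2) l hl _ (by omega)).trans ?_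
    rw [← badd, show l + (m + 1) = c + 2 by omega]
    exact S.pow s
  refine h1.trans_lt (((S.down m hm.le s).1.trans (Q.step (2 * m) _ (by omega))).trans_lt ?_)
  rw [bs m]
  exact (Q.h (2 * m + 1)).strictMono ((S.Zlt m hm _).trans_le (S.pb _ _ (by omega) (by omega)))

/-- `Z (2 m + 2) W (m + 2) ≤ b`. -/
lemma gamma (m : ℕ) (hm : m < c + 2) (s : J) : Q.F (2 * m + 2) (P.F (m + 2) s) ≤ b s :=
  S.rule (m + 1) (2 * m + 1) s (by omega) (by omega) (S.alpha m hm _).le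
    (S.zw_even (m + 1) (by omega) (by omega) _).le

lemma pair (m : ℕ) (hm : m < c + 2) (t : J) :
    Q.F (2 * m + 2) (Q.F (2 * m + 1) t) < b t :=
  ((Q.F (2 * m + 2)).strictMono (S.Zlt m hm t)).trans_le (S.gamma m hm t)

/-- The last edges. -/
lemma s7 (y : J) : P.F (c + 3) y < Q.F (2 * c + 4) (Q.F (2 * c + 3) y) := by
  obtain ⟨s, rfl⟩ := (b ^ (c + 1)).surjective y
  have h1 : a s < Q.F (2 * c + 5) (Q.F (2 * c + 4) (Q.F (2 * c + 3) ((b ^ (c + 1)) s))) := by
    have h2 := (S.down (c + 1) (by omega) s).2 (by omega)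
    have h3 : Q.h (2 * c + 2) ((b ^ (c + 1)) s) ≤
        Q.h (2 * c + 5) (Q.F (2 * c + 5) (Q.F (2 * c + 4) (Q.F (2 * c + 3) ((b ^ (c + 1)) s)))) :=
      (Q.step (2 * c + 2) _ (by omega)).trans ((Q.step (2 * c + 3) _ (by omega)).trans
        (Q.step (2 * c + 4) _ (by omega)))
    rw [Q.bot] at h3
    exact h2.trans_le h3
  have h2 : Q.F (2 * c + 5) (P.F (c + 3) ((b ^ (c + 1)) s)) ≤ a s := by
    refine (S.bot _).trans ?_
    rw [← bs]
    exact S.pow s
  exact (Q.F (2 * c + 5)).lt_iff_lt.mp (h2.trans_lt h1)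

lemma www (x : J) : b (b x) ≤ P.F (c + 3) (P.F (c + 2) (P.F (c + 1) x)) := by
  have h1 : P.h c x ≤ P.h (c + 3) (P.F (c + 3) (P.F (c + 2) (P.F (c + 1) x))) :=
    (P.step c _ (by omega)).trans ((P.step (c + 1) _ (by omega)).trans
      (P.step (c + 2) _ (by omega)))
  rw [P.bot] at h1
  refine le_trans ?_ h1
  have h2 : b (b x) = (b ^ 2) x := by rw [bs 1, pow_one]
  rw [h2]
  rcases Nat.eq_zero_or_pos c with rfl | h
  · rw [P.top]
    exact S.pow x
  · exact (S.wlow c 2 h rfl x).le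

lemma k1 (x : J) : b (Q.F (2 * c + 1) x) ≤ P.F (c + 3) (P.F (c + 2) x) := by
  obtain ⟨s, rfl⟩ := (P.F (c + 1)).surjective x
  exact (b.monotone (S.beta c (by omega) s)).trans (S.www s)

/-- From the top to the vertex `2 c + 1` of `Q`. -/
lemma reach (x : J) : b (b x) ≤ Q.h (2 * c + 1) (Q.F (2 * c + 1) x) := by
  obtain ⟨s, rfl⟩ := (b ^ c).surjective x
  rw [← bs, ← bs]
  exact (S.pow s).trans ((S.down c (by omega) s).1.trans (Q.step (2 * c) _ (by omega)))

lemma s8 (r : J) : P.h (c + 1) r < Q.h (2 * c + 1) r := by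
  by_contra hn
  push Not at hn
  obtain ⟨s, rfl⟩ := (Q.F (2 * c + 1)).surjective r
  have h1 : b (b s) ≤ P.F (c + 3) (P.F (c + 2) (Q.F (2 * c + 1) s)) := by
    have h2 : P.h (c + 1) (Q.F (2 * c + 1) s) ≤
        P.h (c + 3) (P.F (c + 3) (P.F (c + 2) (Q.F (2 * c + 1) s))) :=
      (P.step (c + 1) _ (by omega)).trans (P.step (c + 2) _ (by omega))
    rw [P.bot] at h2
    exact (S.reach s).trans (hn.trans h2)
  obtain ⟨x, hx⟩ := (Q.F (2 * c + 3)).surjective (P.F (c + 3) (b s))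
  have h2 : P.F (c + 2) (Q.F (2 * c + 1) s) ≤ x := by
    rw [← (Q.F (2 * c + 3)).le_iff_le, hx]
    exact (S.beta (c + 1) (by omega) _).trans ((S.k1 s).trans
      ((P.F (c + 3)).monotone (S.pb _ _ (by omega) (by omega))))
  have h3 : Q.F (2 * c + 4) (P.F (c + 3) (b s)) ≤ b (b s) := S.gamma (c + 1) (by omega) _
  have h4 := S.s7 x
  rw [hx] at h4
  exact absurd (h3.trans (h1.trans ((P.F (c + 3)).monotone h2))) (not_le.mpr h4)

lemma g2 (s : J) : Q.F (2 * c + 2) (P.F (c + 1) s) ≤ b s :=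
  S.rule c (2 * c + 1) s (by omega) (by omega) (S.s8 _).le
    ((S.zw_even (c + 1) (by omega) (by omega) _).le.trans (S.mono _ c (by omega)))

lemma k2 (x : J) : b (Q.F (2 * c + 2) x) ≤ P.F (c + 3) (P.F (c + 2) x) := by
  obtain ⟨s, rfl⟩ := (P.F (c + 1)).surjective x
  exact (b.monotone (S.g2 s)).trans (S.www s)

lemma s9 (t : J) : Q.h (2 * c + 3) t < P.h (c + 2) t := by
  by_contra hn
  push Not at hn
  obtain ⟨r, rfl⟩ := (P.F (c + 2)).surjective t
  obtain ⟨s, rfl⟩ := (Q.F (2 * c + 1)).surjective r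
  set r := Q.F (2 * c + 1) s with hr
  -- the first inequality
  have h1 : b s < P.F (c + 2) r := by
    have h2 : b (b s) ≤ Q.F (2 * c + 5) (Q.F (2 * c + 4) (Q.F (2 * c + 3)
        (Q.F (2 * c + 2) r))) := by
      have h3 : Q.h (2 * c + 1) r ≤ Q.h (2 * c + 5) (Q.F (2 * c + 5) (Q.F (2 * c + 4)
          (Q.F (2 * c + 3) (Q.F (2 * c + 2) r)))) :=
        (Q.step (2 * c + 1) _ (by omega)).trans ((Q.step (2 * c + 2) _ (by omega)).trans
          ((Q.step (2 * c + 3) _ (by omega)).trans (Q.step (2 * c + 4) _ (by omega))))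
      rw [Q.bot] at h3
      exact (S.reach s).trans h3
    have h3 : Q.F (2 * c + 5) (Q.F (2 * c + 4) (Q.F (2 * c + 3) (Q.F (2 * c + 2) r))) <
        Q.F (2 * c + 5) (b (Q.F (2 * c + 2) r)) :=
      (Q.F (2 * c + 5)).strictMono (S.pair (c + 1) (by omega) _)
    have h4 : Q.F (2 * c + 5) (b (Q.F (2 * c + 2) r)) ≤ b (P.F (c + 2) r) :=
      ((Q.F (2 * c + 5)).monotone (S.k2 r)).trans (S.bot _)
    exact b.lt_iff_lt.mp (h2.trans_lt (h3.trans_le h4))
  -- the second inequality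
  have h2 : Q.F (2 * c + 4) (P.F (c + 2) r) ≤ b r :=
    S.rule (c + 1) (2 * c + 3) r (by omega) (by omega) hn
      ((S.zw_even (c + 2) (by omega) (by omega) _).le.trans (S.mono _ (c + 1) (by omega)))
  obtain ⟨x, hx⟩ := (Q.F (2 * c + 3)).surjective (b s)
  have h3 : P.F (c + 2) s ≤ x := by
    rw [← (Q.F (2 * c + 3)).le_iff_le, hx]
    exact S.beta (c + 1) (by omega) s
  have h4 := S.s7 x
  rw [hx] at h4
  have h5 : b r < Q.F (2 * c + 4) (b s) :=
    ((S.k1 s).trans ((P.F (c + 3)).monotone h3)).trans_lt h4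
  exact absurd h1 (not_lt.mpr ((Q.F (2 * c + 4)).lt_iff_lt.mp (h2.trans_lt h5)).le)

/-- There are no such paths. -/
theorem false (s : J) : False := by
  set r := Q.F (2 * c + 1) s with hr
  have h1 : P.F (c + 3) (Q.F (2 * c + 2) r) < b r := by
    have h2 : Q.F (2 * c + 4) (P.F (c + 3) (Q.F (2 * c + 2) r)) ≤ b (Q.F (2 * c + 2) r) :=
      S.gamma (c + 1) (by omega) _
    have h3 := S.s7 (P.F (c + 2) r)
    have h4 : Q.F (2 * c + 4) (Q.F (2 * c + 3) (P.F (c + 2) r)) ≤ Q.F (2 * c + 4) (b r) :=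
      (Q.F (2 * c + 4)).monotone (S.beta (c + 1) (by omega) r)
    exact (Q.F (2 * c + 4)).lt_iff_lt.mp ((h2.trans (S.k2 r)).trans_lt (h3.trans_le h4))
  set t := Q.F (2 * c + 3) (Q.F (2 * c + 2) r) with ht
  have h2 : b (b s) < b t := by
    have h3 : Q.h (2 * c + 1) r ≤ Q.h (2 * c + 3) t :=
      (Q.step (2 * c + 1) _ (by omega)).trans (Q.step (2 * c + 2) _ (by omega))
    have h4 : P.h (c + 2) t ≤ P.F (c + 3) t := by
      have := P.step (c + 2) t (by omega)
      change P.h (c + 2) t ≤ P.h (c + 3) (P.F (c + 3) t) at this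
      rwa [P.bot] at this
    exact ((S.reach s).trans h3).trans_lt ((S.s9 t).trans_le (h4.trans
      (S.pb _ _ (by omega) (by omega))))
  have h3 : P.F (c + 2) s < Q.F (2 * c + 2) r :=
    (Q.F (2 * c + 3)).lt_iff_lt.mp ((S.beta (c + 1) (by omega) s).trans_lt (b.lt_iff_lt.mp h2))
  exact absurd ((S.k1 s).trans_lt ((P.F (c + 3)).strictMono h3)) (not_lt.mpr h1.le)

end Two

end Pool.Agent.Helper42.T3
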