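import Mathlib
import Pool.Agent.Helper42.Th.Defs

/-!
Paths which join the ends of the negative edge of a labelled graph, side by side.
-/

set_option autoImplicit false

namespace Pool.Agent.Helper42.T3

open Pool.Agent.Helper42.Th

variable {E : Type} {G : Type*} [Group G] {Γ : CMap E}

/-- The darts `p 0`, ..., `p (n - 1)` form a path from the vertex where `δ` starts to the vertex
where it ends, and the `n + 1` vertices of the path are different.  An edge the slope of which is
at least `1 / ℓ` counts `ℓ`, and the path has length at most `N`.  The closed curve which consists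
of the path and of the edge of `δ` has two sides; the faces on the first side are those with
`F`. -/
structure Route (L : Lab G Γ) (δ : E) (N n : ℕ) (p : ℕ → E) (F : E → Prop) : Prop where
  pos : 0 < n
  start : Γ.rot.SameCycle δ (p 0)
  next : ∀ i, i + 1 < n → Γ.rot.SameCycle (Γ.flip (p i)) (p (i + 1))
  stop : Γ.rot.SameCycle (Γ.flip (p (n - 1))) (Γ.flip δ)
  simple : ∀ i j, i < j → j < n → ¬ Γ.rot.SameCycle (p i) (p j)
  simple' : ∀ i < n, ¬ Γ.rot.SameCycle (p i) (Γ.flip δ)
  ne : ∀ i < n, p i ≠ δ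
  length : ∃ ℓ : ℕ → ℕ, (∀ i < n, 0 < ℓ i ∧ L.Within (p i) (ℓ i)) ∧
    ∑ i ∈ Finset.range n, ℓ i ≤ N
  face : ∀ d, F (Γ.flip (Γ.rot d)) ↔ F d
  side : F δ ∧ ¬ F (Γ.flip δ)
  change : ∀ d, d ≠ δ → d ≠ Γ.flip δ →
    ((F d ↔ F (Γ.flip d)) ↔ ∀ i < n, d ≠ p i ∧ Γ.flip d ≠ p i)

/-- The paths have no common edge and no common vertex except for their ends, and one of them
lies on one side of the other one. -/
def Apart (Γ : CMap E) (n m : ℕ) (p q : ℕ → E) (F F' : E → Prop) : Prop :=
  p 0 ≠ q 0 ∧ (∀ i j, 0 < i → i < n → 0 < j → j < m → ¬ Γ.rot.SameCycle (p i) (q j)) ∧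
    ((∀ d, F d → F' d) ∨ ∀ d, F' d → F d)

end Pool.Agent.Helper42.T3
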