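import Pool.Agent.Helper31.T3.Face

/-!
Paths of length `k` and `2`.
-/

set_option autoImplicit false

namespace Pool.Agent.Helper42.T3

open Pool.Agent.Helper31.T3

variable {J : Type*} [LinearOrder J] {a b : J ≃o J} {k m n : ℕ}

/-- One after the other. -/
lemma bsucc (n : ℕ) (x : J) : (b ^ (n + 1)) x = (b ^ n) (b x) := by
  rw [pow_succ, RelIso.mul_apply]

/-- The heights of a path. -/
lemma h_le (P : FPth a b n (fun _ => 1)) (e i : ℕ) (h : i + e = n) (z : J) :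
    P.h i z ≤ (b ^ e) z := by
  induction e generalizing i z with
  | zero =>
    obtain rfl : i = n := by omega
    rw [P.bot]
    exact le_rfl
  | succ e ih =>
    have h1 := P.step i z (by omega)
    rw [pow_one] at h1
    rw [bsucc]
    exact h1.trans ((ih (i + 1) (by omega) _).trans ((b ^ e).monotone (P.F_le _ _)))

/-- A path of length `n`. -/
lemma a_le (P : FPth a b n (fun _ => 1)) (z : J) : a z ≤ (b ^ n) z := by
  rw [← P.top z]
  exact h_le P n 0 (by omega) z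

lemma a_lt (P : FPth a b n (fun _ => 1)) (h : ∀ z, P.F 1 z < b z) (z : J) : a z < (b ^ n) z := by
  obtain ⟨e, he⟩ : ∃ e, n = e + 1 := ⟨n - 1, by have := P.pos; omega⟩
  have h1 := P.step 0 z P.pos
  rw [P.top, pow_one] at h1
  have h2 := h_le P e 1 (by omega) (P.F 1 z)
  have h3 : (b ^ n) z = (b ^ e) (b z) := by rw [he, bsucc]
  rw [h3]
  exact (h1.trans h2).trans_lt ((b ^ e).strictMono (h z))

lemma two_le (P : FPth a b 2 (fun _ => 1)) (z : J) : a z ≤ P.F 2 (P.F 1 z) := by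
  have h1 := P.step 0 z (by norm_num)
  have h2 := P.step 1 (P.F 1 z) (by norm_num)
  rw [P.top, pow_one] at h1
  rw [pow_one] at h2
  change P.h 1 (P.F 1 z) ≤ P.h 2 (P.F 2 (P.F 1 z)) at h2
  rw [P.bot] at h2
  exact h1.trans h2

variable {u v w : ℕ → ℕ}

lemma F_gt (P : FPth a b n w) (z : J) : z < P.F 1 z := FPth.dn_iff.mp (P.fst z)

lemma F_gt' (P : FPth a b n w) (z : J) : z < P.F n z := FPth.dn_iff.mp (P.lst z)

/-- The first edges of two paths. -/
lemma top2 {P : FPth a b m u} {Q : FPth a b n v} (h : P.Left Q) (s : J) :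
    Q.F 1 (P.F 1 s) ≤ b s :=
  FPth.cut2 h 0 0 s P.pos Q.pos (Or.inr (Or.inr (Or.inl ⟨rfl, rfl⟩)))
    ⟨by rw [Q.top]; exact P.hi _ _, by rw [P.top]; exact Q.hi _ _⟩

/-- The last edges of two paths. -/
lemma bot2 {P : FPth a b m u} {Q : FPth a b n v} (h : P.Left Q) (s : J) :
    Q.F n (P.F m s) ≤ b s := by
  obtain ⟨i, hi⟩ : ∃ i, m = i + 1 := ⟨m - 1, by have := P.pos; omega⟩
  obtain ⟨j, hj⟩ : ∃ j, n = j + 1 := ⟨n - 1, by have := Q.pos; omega⟩
  have h1 := FPth.cut2 h i j s (by omega) (by omega)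
    (Or.inr (Or.inr (Or.inr ⟨hi.symm, hj.symm⟩)))
    ⟨by rw [← hi, P.bot]; exact Q.lo _ _, by rw [← hj, Q.bot]; exact P.lo _ _⟩
  rwa [← hi, ← hj] at h1

/-- The first edges of three paths. -/
lemma top3 {R : FPth a b k w} {P : FPth a b m u} {Q : FPth a b n v} (h1 : R.Left P)
    (h2 : P.Left Q) (h3 : R.Left Q) (s : J) : Q.F 1 (P.F 1 (R.F 1 s)) ≤ b s :=
  FPth.cut3 h1 h2 h3 0 0 0 s R.pos P.pos Q.pos (Or.inr (Or.inr (Or.inl ⟨rfl, rfl⟩)))
    ⟨by rw [P.top]; exact R.hi _ _, by rw [R.top]; exact P.hi _ _⟩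
    (Or.inr (Or.inr (Or.inl ⟨rfl, rfl⟩)))
    ⟨by rw [Q.top]; exact P.hi _ _, by rw [P.top]; exact Q.hi _ _⟩
    (Or.inr (Or.inr (Or.inl ⟨rfl, rfl⟩)))

/-- The last edges of three paths. -/
lemma bot3 {R : FPth a b k w} {P : FPth a b m u} {Q : FPth a b n v} (h1 : R.Left P)
    (h2 : P.Left Q) (h3 : R.Left Q) (s : J) : Q.F n (P.F m (R.F k s)) ≤ b s := by
  obtain ⟨c, hc⟩ : ∃ c, k = c + 1 := ⟨k - 1, by have := R.pos; omega⟩
  obtain ⟨i, hi⟩ : ∃ i, m = i + 1 := ⟨m - 1, by have := P.pos; omega⟩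
  obtain ⟨j, hj⟩ : ∃ j, n = j + 1 := ⟨n - 1, by have := Q.pos; omega⟩
  have h4 := FPth.cut3 h1 h2 h3 c i j s (by omega) (by omega) (by omega)
    (Or.inr (Or.inr (Or.inr ⟨hc.symm, hi.symm⟩)))
    ⟨by rw [← hc, R.bot]; exact P.lo _ _, by rw [← hi, P.bot]; exact R.lo _ _⟩
    (Or.inr (Or.inr (Or.inr ⟨hi.symm, hj.symm⟩)))
    ⟨by rw [← hi, P.bot]; exact Q.lo _ _, by rw [← hj, Q.bot]; exact P.lo _ _⟩
    (Or.inr (Or.inr (Or.inr ⟨hc.symm, hj.symm⟩)))
  rwa [← hc, ← hi, ← hj] at h4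

/-- A path of length `k`, and another path. -/
theorem one_false (hk : ∀ z, (b ^ k) z ≤ a z) (P : FPth a b k (fun _ => 1)) (Q : FPth a b n v)
    (h : P.Left Q ∨ Q.Left P) (z : J) : False := by
  refine absurd (a_lt P (fun t => ?_) z) (not_lt.mpr (hk z))
  rcases h with h | h
  · exact (F_gt Q _).trans_le (top2 h t)
  · obtain ⟨s, rfl⟩ := (Q.F 1).surjective t
    exact (top2 h s).trans_lt (b.strictMono (F_gt Q s))

/-- Two paths of length two. -/
lemma two_lt_false (hk : ∀ z, b z ≤ a z) (P Q : FPth a b 2 (fun _ => 1))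
    (h1 : ∀ s, Q.F 1 (P.F 1 s) < b s) (h2 : ∀ s, Q.F 2 (P.F 2 s) < b s) (z : J) : False := by
  have e1 : ∀ t, Q.F 1 t < P.F 2 t := by
    intro t
    obtain ⟨s, rfl⟩ := (P.F 1).surjective t
    exact (h1 s).trans_le ((hk s).trans (two_le P s))
  have e2 : ∀ t, P.F 2 t < Q.F 1 t := fun t =>
    (Q.F 2).lt_iff_lt.mp ((h2 t).trans_le ((hk t).trans (two_le Q t)))
  exact lt_irrefl _ ((e1 z).trans (e2 z))

/-- Two paths of length two. -/
lemma two_eq (hk : ∀ z, b z ≤ a z) {P Q : FPth a b 2 (fun _ => 1)} (h : P.Left Q) (z : J) :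
    a z ≤ b z := by
  have e2 : ∀ t, P.F 2 t ≤ Q.F 1 t := fun t =>
    (Q.F 2).le_iff_le.mp ((bot2 h t).trans ((hk t).trans (two_le Q t)))
  exact (two_le P z).trans ((e2 _).trans (top2 h z))

/-- Two paths of length two, and a third path. -/
theorem two_false (hk : ∀ z, b z ≤ a z) {P Q : FPth a b 2 (fun _ => 1)} {R : FPth a b n v}
    (h : P.Left Q) (h' : (R.Left P ∧ R.Left Q) ∨ (P.Left R ∧ R.Left Q) ∨ (P.Left R ∧ Q.Left R))
    (z : J) : False := by
  rcases h' with ⟨h1, h2⟩ | ⟨h1, h2⟩ | ⟨h1, h2⟩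
  · refine two_lt_false hk P Q (fun t => ?_) (fun t => ?_) z
    · obtain ⟨s, rfl⟩ := (R.F 1).surjective t
      exact (top3 h1 h h2 s).trans_lt (b.strictMono (F_gt R s))
    · obtain ⟨s, rfl⟩ := (R.F n).surjective t
      exact (bot3 h1 h h2 s).trans_lt (b.strictMono (F_gt' R s))
  · refine two_lt_false hk P Q (fun s => ?_) (fun s => ?_) z
    · exact ((Q.F 1).strictMono (F_gt R _)).trans_le (top3 h1 h2 h s)
    · exact ((Q.F 2).strictMono (F_gt' R _)).trans_le (bot3 h1 h2 h s)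
  · refine two_lt_false hk P Q (fun s => ?_) (fun s => ?_) z
    · exact (F_gt R _).trans_le (top3 h h2 h1 s)
    · exact (F_gt' R _).trans_le (bot3 h h2 h1 s)

end Pool.Agent.Helper42.T3
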