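import Mathlib
import Pool.Agent.Helper42.Th.Main

/-!
The group is not left-orderable if the element of the negative edge which is given by the
vertices does not move up, in any action.
-/

set_option autoImplicit false

namespace Pool.Agent.Helper42.T3

open Pool.Agent.Helper42.Th
open Pool.Agent.Helper31.OrderAct
open Pool.Agent.Helper71.Rot
open Pool.Agent.Helper71.Tree

universe u

section Main

variable {E : Type} [Finite E] {Γ : CMap E} {G : Type u} [Group G] (L : Lab G Γ) (δ : E)
  (P : Set E) (F : E → Set G) (F₀ : Set G) (k : ℕ) (s : Bool)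

/-- The main theorem. -/
theorem not_leftOrderable
    (hP : ∀ d, d ≠ δ → d ≠ Γ.flip δ → d ∈ P ∨ Γ.flip d ∈ P)
    (hpos : ∀ d ∈ P, Fill true 0 (L.M d) (L.D d) (F d))
    (hk : 0 < k) (hneg : Fill s k (L.D δ) (L.M δ)⁻¹ F₀)
    (H : ∀ (Ω : Type u) [CompleteLinearOrder Ω] (ρ : G →* (Ω ≃o Ω)) (z : Ω),
      z ≤ ρ (L.D δ) z → ρ (L.D δ) z = z)
    (hgen : Subgroup.closure ((L.elts ∪ ⋃ d ∈ P, F d) ∪ F₀) = ⊤) :
    ¬ (Nontrivial G ∧ ∃ _ : LinearOrder G, ∀ f g h : G, g ≤ h → f * g ≤ f * h) := by
  -- no element moves up under `D δ`, for any left order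
  have noup : ∀ ho : LinearOrder G, (∀ f g h : G, g ≤ h → f * g ≤ f * h) →
      ∀ g : G, L.D δ * g ≤ g := by
    intro ho hmul g
    by_contra hn
    push Not at hn
    have h1 : ∀ u v : G, cutHom hmul u (LowerSet.Iic v) = LowerSet.Iic (u * v) := by
      intro u v
      ext w
      change w ∈ cutHom hmul u (LowerSet.Iic v) ↔ w ∈ LowerSet.Iic (u * v)
      rw [mem_cutHom]
      change u⁻¹ * w ≤ v ↔ w ≤ u * v
      constructor
      · intro h
        have := hmul u _ _ h
        rwa [mul_inv_cancel_left] at this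
      · intro h
        have := hmul u⁻¹ _ _ h
        rwa [inv_mul_cancel_left] at this
    have h2 : LowerSet.Iic g ≤ cutHom hmul (L.D δ) (LowerSet.Iic g) := by
      rw [h1]
      exact fun w (hw : w ≤ g) => (hw.trans hn.le : w ≤ L.D δ * g)
    have h3 := H _ (cutHom hmul) _ h2
    rw [h1] at h3
    have h4 : L.D δ * g ≤ g := h3.le (le_refl (L.D δ * g))
    exact absurd hn (not_lt.mpr h4)
  rintro ⟨hnt, ⟨ho, hmul⟩⟩
  -- the element `D δ` is trivial
  have hD : L.D δ = 1 := by
    have h1 := noup ho hmul 1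
    have h2 := noup (OrderDual.instLinearOrder G) (fun f g h hgh => hmul f h g hgh) 1
    rw [mul_one] at h1 h2
    exact le_antisymm h1 h2
  have hall : ∀ z : LowerSet G, ∀ g : G, cutHom hmul g z = z := by
    intro z g
    set ρ := cutHom hmul with hρ
    have S := sys L δ P F F₀ k s ρ hP hpos hk hneg
    have ha : ρ (L.D δ) z = z := by rw [hD, map_one]; rfl
    have hb : ρ (L.M δ)⁻¹ z = z := by
      refine le_antisymm ?_ (S.b_ge ha.ge)
      exact (S.b_le_a ha.ge).trans ha.le
    have hX : ∀ d, lx L ρ d z = lx L ρ δ z := by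
      intro d
      obtain ⟨h1, h2, -, -⟩ := S.ext ha.ge d
      have h3 := S.ha z
      rw [ha] at h3
      exact le_antisymm h2 (h3 ▸ h1)
    have hY : ∀ d, ly L ρ d z = ly L ρ δ z := by
      intro d
      obtain ⟨-, -, h1, h2⟩ := S.ext ha.ge d
      have h3 := S.hb z
      rw [hb] at h3
      exact le_antisymm (h3 ▸ h2) h1
    have hX1 : ∀ d, ρ (L.x d) z = z := by
      obtain ⟨c, hc⟩ := L.x_one
      intro d
      have h1 : lx L ρ d z = lx L ρ c z := (hX d).trans (hX c).symm
      change ρ (L.x d) z = ρ (L.x c) z at h1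
      rw [h1, hc, map_one]
      rfl
    have hY1 : ∀ d, ρ (L.y d) z = z := by
      obtain ⟨c, hc⟩ := L.y_one
      intro d
      have h1 : ly L ρ d z = ly L ρ c z := (hY d).trans (hY c).symm
      change ρ (L.y d) z = ρ (L.y c) z at h1
      rw [h1, hc, map_one]
      rfl
    have hDd : ∀ d, ρ (L.D d) z = z := by
      intro d
      rw [Lab.D, map_mul, map_inv, RelIso.mul_apply, hX1]
      exact inv_fix (hX1 _)
    have hMd : ∀ d, ρ (L.M d) z = z := by
      intro d
      rw [Lab.M, map_mul, map_inv, RelIso.mul_apply, hY1]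
      exact inv_fix (hY1 _)
    have hg : g ∈ Subgroup.closure ((L.elts ∪ ⋃ d ∈ P, F d) ∪ F₀) := by
      rw [hgen]
      trivial
    induction hg using Subgroup.closure_induction with
    | mem y hy =>
      rcases hy with ((⟨d, rfl⟩ | ⟨d, rfl⟩) | hy) | hy
      · exact hX1 d
      · exact hY1 d
      · obtain ⟨d, hd⟩ := Set.mem_iUnion.mp hy
        obtain ⟨hd1, hd2⟩ := Set.mem_iUnion.mp hd
        exact (spec_of_fill ρ (hpos d hd1)).fix z (hMd d) (hDd d) _ ⟨y, hd2, rfl⟩
      · exact (spec_of_fill ρ hneg).fix z ha hb _ ⟨y, hy, rfl⟩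
    | one => rw [map_one]; rfl
    | mul a b _ _ ha hb => rw [map_mul, RelIso.mul_apply, hb, ha]
    | inv a _ ha => rw [map_inv]; exact inv_fix ha
  obtain ⟨x, y, hxy⟩ := exists_pair_ne G
  have key : ∀ x y : G, y ≤ x := by
    intro x y
    have h1 := hall (LowerSet.Iic x) (y * x⁻¹)
    have h2 : y ∈ LowerSet.Iic x := by
      rw [← h1, mem_cutHom]
      simp
    exact h2
  exact hxy (le_antisymm (key y x) (key x y))

end Main

end Pool.Agent.Helper42.T3
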