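import Pool.Agent.Helper31.T3.Final
import Pool.Agent.Helper42.T3.Small
import Pool.Agent.Helper42.T3.Top

/-!
Diagrams with one negative crossing ball: the fundamental group is not left-orderable if the
ends of the negative edge are joined by short paths side by side.
-/

set_option autoImplicit false

namespace Pool.Agent.Helper42.T3

open Pool.Agent.Helper42.Th Pool.Agent.Helper31.T3

section close

variable {E : Type} {G : Type*} [Group G] {Γ : CMap E} {L : Lab G Γ} {δ : E}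
  {N n M m : ℕ} {p q : ℕ → E} {F F' : E → Prop} {Ω : Type*} [CompleteLinearOrder Ω]
  {ρ : G →* (Ω ≃o Ω)} {a b : Ω ≃o Ω} {k : ℕ} {z₀ : Ω}

lemma Apart.symm (h : Apart Γ n m p q F F') : Apart Γ m n q p F' F :=
  ⟨fun e => h.1 e.symm, fun i j h1 h2 h3 h4 h5 =>
    h.2.1 j i h3 h4 h1 h2 h5.symm, h.2.2.symm⟩

/-- Three paths side by side. -/
def Tri (L : Lab G Γ) (δ : E) (A B C : ℕ) : Prop :=
  ∃ (l n m : ℕ) (o p q : ℕ → E) (F F' F'' : E → Prop), Route L δ A l o F ∧ Route L δ B n p F' ∧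
    Route L δ C m q F'' ∧ Apart Γ l n o p F F' ∧ Apart Γ l m o q F F'' ∧ Apart Γ n m p q F' F''

lemma Tri.swap {A B C : ℕ} (h : Tri L δ A B C) : Tri L δ B A C := by
  obtain ⟨l, n, m, o, p, q, F, F', F'', h1, h2, h3, h4, h5, h6⟩ := h
  exact ⟨n, l, m, p, o, q, F', F, F'', h2, h1, h3, h4.symm, h6, h5⟩

lemma Tri.swap' {A B C : ℕ} (h : Tri L δ A B C) : Tri L δ A C B := by
  obtain ⟨l, n, m, o, p, q, F, F', F'', h1, h2, h3, h4, h5, h6⟩ := h
  exact ⟨l, m, n, o, q, p, F, F'', F', h1, h3, h2, h5, h4, h6.symm⟩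

lemma Route.mono (h : Route L δ N n p F) (hN : N ≤ M) : Route L δ M n p F := by
  obtain ⟨ℓ, h1, h2⟩ := h.length
  exact { h with length := ⟨ℓ, h1, h2.trans hN⟩ }

variable [Finite E] (S : Sys Γ δ (lx L ρ) (ly L ρ) a b k) (h0 : z₀ < a z₀)
include S h0

lemma left_or (hp : Route L δ N n p F) (hq : Route L δ M m q F') (h : Apart Γ n m p q F F')
    (N' M' : ℕ) (hN : N ≤ N') (hM : M ≤ M') :
    (rt S h0 hp N' hN).Left (rt S h0 hq M' hM) ∨ (rt S h0 hq M' hM).Left (rt S h0 hp N' hN) := by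
  have D := disj_of_apart h
  rcases h.2.2 with s | s
  · exact Or.inr (rt_left S h0 hq hp D.symm s _ _ _ _)
  · exact Or.inl (rt_left S h0 hp hq D s _ _ _ _)

omit [Finite E] in
lemma pow_le_a (z : {z // Reg a z₀ z}) : (bJ S h0 ^ k) z ≤ aJ h0 z := by
  change ((bJ S h0 ^ k) z).1 ≤ a z.1
  rw [bJ_pow]
  exact S.up _ (S.b_ge (reg_lt h0 z.2).le)

/-- A path of length at most `k`, and another path. -/
lemma one_not (hp : Route L δ k n p F) (hq : Route L δ M m q F') (h : Apart Γ n m p q F F') :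
    False :=
  one_false (pow_le_a S h0) (rt S h0 hp k le_rfl) (rt S h0 hq M le_rfl)
    (left_or S h0 hp hq h _ _ _ _) ⟨z₀, reg_self a z₀⟩

omit S h0 in
/-- Three paths. -/
lemma tri_false (S : Sys Γ δ (lx L ρ) (ly L ρ) a b 1) (h0 : z₀ < a z₀) {A B C : ℕ}
    (h : Tri L δ A B C) (hAB : A ≤ B) (hBC : B ≤ C)
    (hABC : A * B * C < B * C + A * C + A * B) : False := by
  obtain ⟨l, n, m, o, p, q, F, F', F'', ho, hp, hq, hop, hoq, hpq⟩ := h
  have hk : ∀ z, bJ S h0 z ≤ aJ h0 z := fun z => S.b_le_a (reg_lt h0 z.2).le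
  have z : {z // Reg a z₀ z} := ⟨z₀, reg_self a z₀⟩
  rcases Nat.lt_or_ge A 2 with hA | hA
  · exact one_not S h0 (ho.mono (by omega)) hp hop
  rcases Nat.lt_or_ge 2 A with hA' | hA'
  · have h1 : 3 * (B * C) ≤ A * (B * C) := Nat.mul_le_mul_right _ hA'
    have h2 : A * C ≤ B * C := Nat.mul_le_mul_right _ hAB
    have h3 : A * B ≤ B * C := by
      rw [Nat.mul_comm]
      exact Nat.mul_le_mul_left _ (hAB.trans hBC)
    rw [← Nat.mul_assoc A B C] at h1
    omega
  obtain rfl : A = 2 := by omega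
  rcases Nat.lt_or_ge B 3 with hB | hB
  · obtain rfl : B = 2 := by omega
    have D1 := disj_of_apart hop
    have D2 := disj_of_apart hoq
    have D3 := disj_of_apart hpq
    rcases hop.2.2 with s1 | s1 <;> rcases hoq.2.2 with s2 | s2 <;> rcases hpq.2.2 with s3 | s3
    · exact two_false hk (P := rt S h0 hp 2 le_rfl) (Q := rt S h0 ho 2 le_rfl)
        (R := rt S h0 hq C le_rfl) (rt_left S h0 hp ho D1.symm s1 _ _ _ _)
        (Or.inl ⟨rt_left S h0 hq hp D3.symm s3 _ _ _ _, rt_left S h0 hq ho D2.symm s2 _ _ _ _⟩) z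
    · exact two_false hk (P := rt S h0 hp 2 le_rfl) (Q := rt S h0 ho 2 le_rfl)
        (R := rt S h0 hq C le_rfl) (rt_left S h0 hp ho D1.symm s1 _ _ _ _)
        (Or.inr (Or.inl ⟨rt_left S h0 hp hq D3 s3 _ _ _ _,
          rt_left S h0 hq ho D2.symm s2 _ _ _ _⟩)) z
    · exact two_false hk (P := rt S h0 hp 2 le_rfl) (Q := rt S h0 ho 2 le_rfl)
        (R := rt S h0 hq C le_rfl) (rt_left S h0 hp ho D1.symm s1 _ _ _ _)
        (Or.inr (Or.inr ⟨rt_left S h0 hp hq D3 (fun d h => s1 d (s2 d h)) _ _ _ _,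
          rt_left S h0 ho hq D2 s2 _ _ _ _⟩)) z
    · exact two_false hk (P := rt S h0 hp 2 le_rfl) (Q := rt S h0 ho 2 le_rfl)
        (R := rt S h0 hq C le_rfl) (rt_left S h0 hp ho D1.symm s1 _ _ _ _)
        (Or.inr (Or.inr ⟨rt_left S h0 hp hq D3 s3 _ _ _ _,
          rt_left S h0 ho hq D2 s2 _ _ _ _⟩)) z
    · exact two_false hk (P := rt S h0 ho 2 le_rfl) (Q := rt S h0 hp 2 le_rfl)
        (R := rt S h0 hq C le_rfl) (rt_left S h0 ho hp D1 s1 _ _ _ _)
        (Or.inl ⟨rt_left S h0 hq ho D2.symm s2 _ _ _ _, rt_left S h0 hq hp D3.symm s3 _ _ _ _⟩) z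
    · exact two_false hk (P := rt S h0 ho 2 le_rfl) (Q := rt S h0 hp 2 le_rfl)
        (R := rt S h0 hq C le_rfl) (rt_left S h0 ho hp D1 s1 _ _ _ _)
        (Or.inl ⟨rt_left S h0 hq ho D2.symm s2 _ _ _ _,
          rt_left S h0 hq hp D3.symm (fun d h => s2 d (s1 d h)) _ _ _ _⟩) z
    · exact two_false hk (P := rt S h0 ho 2 le_rfl) (Q := rt S h0 hp 2 le_rfl)
        (R := rt S h0 hq C le_rfl) (rt_left S h0 ho hp D1 s1 _ _ _ _)
        (Or.inr (Or.inl ⟨rt_left S h0 ho hq D2 s2 _ _ _ _,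
          rt_left S h0 hq hp D3.symm s3 _ _ _ _⟩)) z
    · exact two_false hk (P := rt S h0 ho 2 le_rfl) (Q := rt S h0 hp 2 le_rfl)
        (R := rt S h0 hq C le_rfl) (rt_left S h0 ho hp D1 s1 _ _ _ _)
        (Or.inr (Or.inr ⟨rt_left S h0 ho hq D2 s2 _ _ _ _,
          rt_left S h0 hp hq D3 s3 _ _ _ _⟩)) z
  · have hB' : B < 4 := by
      by_contra hn
      have h1 : 4 * C ≤ B * C := Nat.mul_le_mul_right _ (by omega)
      have h2 : 2 * B * C = 2 * (B * C) := Nat.mul_assoc _ _ _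
      omega
    obtain rfl : B = 3 := by omega
    exact not_up S (Spherical.one l n m o p q F F' F'' ho hp (hq.mono (by omega)) hop hoq hpq) h0

omit S h0 in
/-- The element of the negative edge does not move up. -/
theorem fix_of_close {s : Bool} (S : Sys Γ δ (lx L ρ) (ly L ρ) a b k)
    (hs : s = true → ∀ z, z ≤ a z → a z = (b ^ k) z → a z = z) (h : Close L δ k s) {z : Ω}
    (hz : z ≤ a z) : a z = z := by
  by_contra hne
  have h0 : z < a z := lt_of_le_of_ne hz (Ne.symm hne)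
  cases h with
  | one _ _ N n m p q F F' hp hq hpq => exact one_not S h0 hp hq hpq
  | two _ _ n m p q F F' hk hp hq hpq =>
    exact not_up S (Spherical.two k n m p q F F' hk hp hq hpq) h0
  | three _ A B C l n m o p q F F' F'' h ho hp hq hop hoq hpq =>
    have T : Tri L δ A B C :=
      ⟨l, n, m, o, p, q, F, F', F'', ho, hp, hq, hop, hoq, hpq⟩
    rcases le_total A B with h1 | h1 <;> rcases le_total B C with h2 | h2 <;>
      rcases le_total A C with h3 | h3
    · exact tri_false S h0 T h1 h2 h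
    · exact tri_false S h0 T h1 h2 h
    · exact tri_false S h0 T.swap' h3 h2 (by
        rw [Nat.mul_right_comm A C B, Nat.mul_comm C B]
        omega)
    · exact tri_false S h0 T.swap'.swap h3 h1 (by
        rw [Nat.mul_comm C A, Nat.mul_right_comm A C B, Nat.mul_comm C B]
        omega)
    · exact tri_false S h0 T.swap h1 h3 (by
        rw [Nat.mul_comm B A]
        omega)
    · exact tri_false S h0 T.swap.swap' h2 h3 (by
        rw [Nat.mul_right_comm B C A, Nat.mul_comm B A, Nat.mul_comm C A]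
        omega)
    · exact tri_false S h0 T.swap.swap'.swap h2 h1 (by
        rw [Nat.mul_comm C B, Nat.mul_right_comm B C A, Nat.mul_comm B A, Nat.mul_comm C A]
        omega)
    · exact tri_false S h0 T.swap.swap'.swap h2 h1 (by
        rw [Nat.mul_comm C B, Nat.mul_right_comm B C A, Nat.mul_comm B A, Nat.mul_comm C A]
        omega)
  | one' _ n p F hp =>
    have h1 := a_le (rt S h0 hp k le_rfl) ⟨z, reg_self a z⟩
    have h2 : a z ≤ ((bJ S h0 ^ k) ⟨z, reg_self a z⟩).1 := h1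
    rw [bJ_pow] at h2
    exact hne (hs rfl z hz (le_antisymm h2 (S.up _ (S.b_ge hz))))
  | two' n m p q F F' hp hq hpq =>
    have hk : ∀ z, bJ S h0 z ≤ aJ h0 z := fun z => S.b_le_a (reg_lt h0 z.2).le
    have h2 : a z ≤ b z := by
      rcases left_or S h0 hp hq hpq 2 2 le_rfl le_rfl with h | h
      · exact two_eq hk h ⟨z, reg_self a z⟩
      · exact two_eq hk h ⟨z, reg_self a z⟩
    refine hne (hs rfl z hz (le_antisymm ?_ (S.up _ (S.b_ge hz))))
    rw [pow_one]
    exact h2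

end close

universe u

/-- The main theorem. -/
theorem main {E : Type} [Finite E] {G : Type u} [Group G] (Γ : CMap E) (L : Lab G Γ) (δ : E)
    (P : Set E) (F : E → Set G) (F₀ : Set G) (k : ℕ) (s : Bool)
    (hP : ∀ d, d ≠ δ → d ≠ Γ.flip δ → d ∈ P ∨ Γ.flip d ∈ P)
    (hpos : ∀ d ∈ P, Fill true 0 (L.M d) (L.D d) (F d))
    (hk : 0 < k) (hneg : Fill s k (L.D δ) (L.M δ)⁻¹ F₀) (h : Close L δ k s)
    (hgen : Subgroup.closure ((L.elts ∪ ⋃ d ∈ P, F d) ∪ F₀) = ⊤) :
    ¬ (Nontrivial G ∧ ∃ _ : LinearOrder G, ∀ f g h : G, g ≤ h → f * g ≤ f * h) := by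
  refine not_leftOrderable L δ P F F₀ k s hP hpos hk hneg ?_ hgen
  intro Ω _ ρ z hz
  have S := sys L δ P F F₀ k s ρ hP hpos hk hneg
  have hc : Commute (L.M δ) (L.D δ) := comm_MD L δ
  refine fix_of_close S ?_ h hz
  intro hs z _ he
  have h1 := (spec_of_fill ρ hneg).str (by
    rw [← map_mul, ← map_mul]
    congr 1
    exact hc.symm.inv_right.eq) hs k rfl z (by
      rw [RelIso.mul_apply, he, ← RelIso.mul_apply, zpow_neg, zpow_natCast, inv_mul_cancel]
      rfl)
  rw [he]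
  exact Pool.Agent.Helper71.Rot.pow_fix' k h1

end Pool.Agent.Helper42.T3
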