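import Pool.Agent.Helper42.T3.Route

/-!
Short paths which join the ends of the negative edge of a labelled graph, side by side.
-/

set_option autoImplicit false

namespace Pool.Agent.Helper42.T3

open Pool.Agent.Helper42.Th

variable {E : Type} {G : Type*} [Group G] {Γ : CMap E}

/-- The ends of `δ` are joined by two or three paths side by side, which have length at most
* `k` and `N` for any `N`;
* `A`, `B` and `C` with `1 / A + 1 / B + 1 / C > 1`, if `k = 1`;
* `k + 1` and `2 k + 1`, if `k ≥ 2`.

If the slope of the negative edge is smaller than `1 / k` in absolute value (`true`), one path of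
length at most `k`, or two paths of length at most `2` and `k = 1`, are enough. -/
inductive Close (L : Lab G Γ) (δ : E) : ℕ → Bool → Prop
  | one (k : ℕ) (s : Bool) (N n m : ℕ) (p q : ℕ → E) (F F' : E → Prop) (hp : Route L δ k n p F)
      (hq : Route L δ N m q F') (hpq : Apart Γ n m p q F F') : Close L δ k s
  | two (k : ℕ) (s : Bool) (n m : ℕ) (p q : ℕ → E) (F F' : E → Prop) (hk : 2 ≤ k)
      (hp : Route L δ (k + 1) n p F) (hq : Route L δ (2 * k + 1) m q F')
      (hpq : Apart Γ n m p q F F') : Close L δ k s
  | three (s : Bool) (A B C l n m : ℕ) (o p q : ℕ → E) (F F' F'' : E → Prop)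
      (h : A * B * C < B * C + A * C + A * B) (ho : Route L δ A l o F)
      (hp : Route L δ B n p F') (hq : Route L δ C m q F'') (hop : Apart Γ l n o p F F')
      (hoq : Apart Γ l m o q F F'') (hpq : Apart Γ n m p q F' F'') : Close L δ 1 s
  | one' (k n : ℕ) (p : ℕ → E) (F : E → Prop) (hp : Route L δ k n p F) : Close L δ k true
  | two' (n m : ℕ) (p q : ℕ → E) (F F' : E → Prop) (hp : Route L δ 2 n p F)
      (hq : Route L δ 2 m q F') (hpq : Apart Γ n m p q F F') : Close L δ 1 true

end Pool.Agent.Helper42.T3
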